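import Pool.Agent.helper76.UF.Spec

/-!
# Project UF, row PRM: a prime polynomial
-/

set_option autoImplicit false

namespace Pool.Agent.UF

open Finset Polynomial NumberField

theorem PRM_nopow (m : ℕ) (K : Type) [Field K] [NumberField K] (hm : Module.finrank ℚ K = 2 ^ m)
    (c : ℕ) (u : K) (k : ℕ) (hk : 0 < k) (hu : u ^ k = 1) (p : ℕ) (hp : p.Prime) (hp2 : p ≠ 2) (y : K) :
    y ^ p ≠ ((2 ^ (2 ^ c) : ℕ) : K) * u := by
  intro h
  have h1 := congrArg (Algebra.norm ℚ) h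
  have e1 : ((2 ^ (2 ^ c) : ℕ) : K) = algebraMap ℚ K ((2 : ℚ) ^ (2 ^ c)) := by
    simp
  rw [map_mul, map_pow, e1, Algebra.norm_algebraMap, hm] at h1
  have hN : (Algebra.norm ℚ u) ^ k = 1 := by
    rw [← map_pow, hu, map_one]
  have hu0 : Algebra.norm ℚ u ≠ 0 := by
    intro h0
    rw [h0, zero_pow hk.ne'] at hN
    exact zero_ne_one hN
  have : Fact (Nat.Prime 2) := ⟨Nat.prime_two⟩
  have hv : padicValRat 2 (Algebra.norm ℚ u) = 0 := by
    have h2 : padicValRat 2 ((Algebra.norm ℚ u) ^ k) = k * padicValRat 2 (Algebra.norm ℚ u) := padicValRat.pow _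
    rw [hN, padicValRat.one] at h2
    rcases mul_eq_zero.1 h2.symm with h3 | h3
    · exact absurd (by exact_mod_cast h3) hk.ne'
    · exact h3
  have h20 : ((2 : ℚ) ^ (2 ^ c)) ^ (2 ^ m) ≠ 0 := by positivity
  have hy0 : Algebra.norm ℚ y ≠ 0 := by
    intro h0
    rw [h0, zero_pow hp.pos.ne'] at h1
    exact (mul_ne_zero h20 hu0) h1.symm
  have h2 := congrArg (padicValRat 2) h1
  rw [padicValRat.pow, padicValRat.mul h20 hu0, hv, add_zero, padicValRat.pow,
    padicValRat.pow] at h2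
  have h3 : padicValRat 2 (2 : ℚ) = 1 := by
    have := padicValRat.self (p := 2) (by norm_num)
    exact_mod_cast this
  rw [h3, mul_one] at h2
  have h4 : (p : ℤ) ∣ ((2 ^ (m + c) : ℕ) : ℤ) := by
    refine ⟨padicValRat 2 (Algebra.norm ℚ y), ?_⟩
    rw [h2]
    push_cast
    rw [pow_add]
  have h5 : p ∣ 2 ^ (m + c) := by exact_mod_cast h4
  exact hp2 ((Nat.prime_dvd_prime_iff_eq hp Nat.prime_two).1 (hp.dvd_of_dvd_pow h5))

theorem PRM : PRM_stmt := by
  intro m K _ _ hm c e u he hu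
  obtain ⟨k, hk, huk⟩ := hu
  have he0 : e ≠ 0 := by
    rintro rfl
    simp at he
  have hmon : ((X : (𝓞 K)[X]) ^ e - C ((((2 ^ (2 ^ c) : ℕ)) : 𝓞 K) * u)).Monic := monic_X_pow_sub_C _ he0
  have hinj : Function.Injective (algebraMap (𝓞 K) K) := RingOfIntegers.coe_injective
  have hmap : ((X : (𝓞 K)[X]) ^ e - C ((((2 ^ (2 ^ c) : ℕ)) : 𝓞 K) * u)).map (algebraMap (𝓞 K) K) =
      (X : K[X]) ^ e - C ((((2 ^ (2 ^ c) : ℕ)) : K) * algebraMap (𝓞 K) K u) := by
    rw [Polynomial.map_sub, Polynomial.map_pow, map_X, map_C, map_mul, map_natCast]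
  have hirr : Irreducible ((X : K[X]) ^ e - C ((((2 ^ (2 ^ c) : ℕ)) : K) * algebraMap (𝓞 K) K u)) := by
    apply X_pow_sub_C_irreducible_of_odd he
    intro p hp hpe b
    refine PRM_nopow m K hm c _ k hk ?_ p hp ?_ b
    · rw [← map_pow, huk, map_one]
    · rintro rfl
      obtain ⟨a, ha⟩ := hpe
      rw [ha] at he
      exact (Nat.not_even_iff_odd.2 he) (even_two_mul a)
  have hpr := hirr.prime
  refine ⟨hmon.ne_zero, ?_, ?_⟩
  · intro hunit
    have h1 := natDegree_eq_zero_of_isUnit hunit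
    rw [natDegree_X_pow_sub_C] at h1
    exact he0 h1
  · intro P Q hPQ
    have h1 := Polynomial.map_dvd (algebraMap (𝓞 K) K) hPQ
    rw [Polynomial.map_mul, hmap] at h1
    rcases hpr.dvd_or_dvd h1 with h2 | h2
    · left
      rw [← hmap] at h2
      exact (Polynomial.map_dvd_map _ hinj hmon).1 h2
    · right
      rw [← hmap] at h2
      exact (Polynomial.map_dvd_map _ hinj hmon).1 h2

end Pool.Agent.UF
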